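import Pool.Agent.V11228.SpecFin

/-!
# Testing an upper bound on the spectral norm of a tensor is `∀ℝ`-complete

Sketch of the hardness proof.  For bilinear forms `A_k` the tensor `∑ z_k A_k(x, y)` has spectral
norm `max (∑ A_k(x, y)²)^(1/2)`, and for a list of quadratic forms with small integer coefficients
and polarizations `g_l(x, y)` the form `σ² |x|²|y|² + 4 (x_t y_t)² - c (|x|²|y|² - ⟨x, y⟩²)
- m ∑ g_l(x, y)²` is a sum of squares of explicit bilinear forms.  It exceeds `σ²` at some unit
vectors if and only if, up to an error measured by the square of the smallest coordinate `t`, the
vectors are parallel and satisfy the quadratic equations; the equations contain a chain of repeated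
squarings (which is stable under such errors) that makes this error doubly exponentially small in
comparison with the coordinates of the encoded system of equations, so that a gap theorem applies.
-/

open Pool.Agent.NPC Pool.Agent.NPC.ER Pool.Agent.NPC.V11228.Spec

/-- SPECTRAL-NORM-BOUND is `∀ℝ`-complete and SPECTRAL-NORM-EXCEED is `∃ℝ`-complete, under
polynomial-time many-one reductions. -/
theorem Pool.Agent.Results.MP_50cd9e_lc.SpectralNormComplete.result :
    ARComplete (lang SpectralNormBound) ∧ ERComplete (lang SpectralNormExceed) :=
  ⟨⟨bound_mem, bound_hard⟩, ⟨exceed_mem, exceed_hard⟩⟩
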